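import Mathlib
import Pool.Graph.R_seed8.Helper999.Sq3.Growth

/-!
# The cap set bound with a saving which is uniform in the prime
-/

set_option autoImplicit false

namespace Pool.Agent.H96.SQ

open Pool.Agent.Helper999.Sq3

theorem exp_neg_le {x : ℝ} (hx : 0 ≤ x) : Real.exp (-x) ≤ 1 - x + x ^ 2 / 2 := by
  have h1 := Real.quadratic_le_exp_of_nonneg hx
  have h2 : 0 < Real.exp x := Real.exp_pos x
  have h3 : 0 < 1 - x + x ^ 2 / 2 := by nlinarith [sq_nonneg (x - 1)]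
  rw [Real.exp_neg]
  rw [inv_eq_one_div, div_le_iff₀ h2]
  calc (1 : ℝ) ≤ (1 - x + x ^ 2 / 2) * (1 + x + x ^ 2 / 2) := by nlinarith [sq_nonneg (x ^ 2)]
    _ ≤ (1 - x + x ^ 2 / 2) * Real.exp x := mul_le_mul_of_nonneg_left h1 h3.le

theorem sum_lin (p : ℕ) : ∑ j ∈ Finset.range p, (j : ℝ) = p * (p - 1) / 2 := by
  induction p with
  | zero => simp
  | succ p ih => rw [Finset.sum_range_succ, ih]; push_cast; ring

theorem sum_sq (p : ℕ) : ∑ j ∈ Finset.range p, (j : ℝ) ^ 2 = p * (p - 1) * (2 * p - 1) / 6 := by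
  induction p with
  | zero => simp
  | succ p ih => rw [Finset.sum_range_succ, ih]; push_cast; ring

theorem key_sum (p : ℕ) (hp : 3 ≤ p) :
    ∃ t : ℝ, 0 < t ∧ t ≤ 1 ∧ ∑ j : Fin p, (t ^ 3) ^ (j : ℕ) ≤ 97 / 100 * p * t ^ (p - 1) := by
  have hp' : (3 : ℝ) ≤ p := by exact_mod_cast hp
  have hp1 : (0 : ℝ) < p - 1 := by linarith
  set y : ℝ := 3 / 20 / (p - 1) with hy
  have hy0 : 0 < y := by positivity
  refine ⟨Real.exp (-y), Real.exp_pos _, Real.exp_le_one_iff.mpr (by linarith), ?_⟩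
  have h1 : Real.exp (-y) ^ (p - 1) = Real.exp (-(3 / 20)) := by
    rw [← Real.exp_nat_mul]
    congr 1
    rw [Nat.cast_sub (by omega), Nat.cast_one, hy]
    field_simp
  have h2 : (17 / 20 : ℝ) ≤ Real.exp (-(3 / 20)) := by
    have := Real.add_one_le_exp (-(3 / 20 : ℝ))
    linarith
  have h3 : ∀ j : ℕ, (Real.exp (-y) ^ 3) ^ j ≤ 1 - 3 * y * j + (3 * y * j) ^ 2 / 2 := by
    intro j
    have e : (Real.exp (-y) ^ 3) ^ j = Real.exp (-(3 * y * j)) := by
      rw [← pow_mul, ← Real.exp_nat_mul]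
      congr 1
      push_cast
      ring
    rw [e]
    exact exp_neg_le (by positivity)
  have h4 : ∑ j : Fin p, (Real.exp (-y) ^ 3) ^ (j : ℕ) ≤
      p - 3 * y * (p * (p - 1) / 2) + 9 * y ^ 2 / 2 * (p * (p - 1) * (2 * p - 1) / 6) := by
    rw [Fin.sum_univ_eq_sum_range (fun j => (Real.exp (-y) ^ 3) ^ j) p]
    refine (Finset.sum_le_sum (fun j _ => h3 j)).trans (le_of_eq ?_)
    rw [Finset.sum_add_distrib, Finset.sum_sub_distrib, Finset.sum_const, Finset.card_range, nsmul_eq_mul, mul_one,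
      ← Finset.mul_sum, sum_lin]
    congr 1
    have : ∀ j : ℕ, (3 * y * (j : ℝ)) ^ 2 / 2 = (9 * y ^ 2 / 2) * (j : ℝ) ^ 2 := fun j => by ring
    simp only [this]
    rw [← Finset.mul_sum, sum_sq]
  have h5 : y * (p - 1) = 3 / 20 := by rw [hy]; field_simp
  have h6 : (p : ℝ) - 3 * y * (p * (p - 1) / 2) + 9 * y ^ 2 / 2 * (p * (p - 1) * (2 * p - 1) / 6) ≤
      p * (8171875 / 10000000) := by
    have e1 : 3 * y * (p * (p - 1) / 2) = p * (9 / 40) := by
      calc 3 * y * (p * (p - 1) / 2) = 3 / 2 * p * (y * (p - 1)) := by ring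
        _ = _ := by rw [h5]; ring
    have e2 : 9 * y ^ 2 / 2 * (p * (p - 1) * (2 * p - 1) / 6) = 3 / 4 * p * (y * (p - 1)) * (y * (2 * p - 1)) := by ring
    have e3 : y * (2 * p - 1) ≤ 3 / 8 := by
      have : y * (2 * (p : ℝ) - 1) ≤ y * (5 / 2 * (p - 1)) := by
        apply mul_le_mul_of_nonneg_left _ hy0.le
        linarith
      calc y * (2 * (p : ℝ) - 1) ≤ y * (5 / 2 * (p - 1)) := this
        _ = 5 / 2 * (y * (p - 1)) := by ring
        _ = 3 / 8 := by rw [h5]; norm_num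
    have e4 : 3 / 4 * (p : ℝ) * (y * (p - 1)) * (y * (2 * p - 1)) ≤ 3 / 4 * (p : ℝ) * (3 / 20) * (3 / 8) := by
      rw [h5]
      apply mul_le_mul_of_nonneg_left e3
      positivity
    rw [e1, e2]
    have : 3 / 4 * (p : ℝ) * (3 / 20) * (3 / 8) = p * (27 / 640) := by ring
    linarith
  rw [h1]
  have h7 : (p : ℝ) * (8171875 / 10000000) ≤ 97 / 100 * p * (17 / 20) := by nlinarith
  have h8 : 97 / 100 * (p : ℝ) * (17 / 20) ≤ 97 / 100 * p * Real.exp (-(3 / 20)) :=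
    mul_le_mul_of_nonneg_left h2 (by positivity)
  linarith

theorem lowP_uniform (p : ℕ) (hp : 3 ≤ p) (n : ℕ) : ((LowP p n).card : ℝ) ≤ (97 / 100 * p) ^ n := by
  obtain ⟨t, ht0, ht1, ht⟩ := key_sum p hp
  have htp : 0 < t ^ (p - 1) := by positivity
  have h1 := lowP_card_bound p n t ht0 ht1
  have h2 : (∑ j : Fin p, (t ^ 3) ^ (j : ℕ)) ^ n ≤ (97 / 100 * p * t ^ (p - 1)) ^ n :=
    pow_le_pow_left₀ (Finset.sum_nonneg (fun _ _ => by positivity)) ht n
  rw [mul_pow (97 / 100 * (p : ℝ))] at h2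
  exact le_of_mul_le_mul_right (h1.trans h2) (by positivity)

/-- sets without three term progressions, uniform saving -/
theorem cap_uniform (p : ℕ) [Fact p.Prime] (hp3 : 3 ≤ p) (m : ℕ) (S : Finset (Fin m → ZMod p))
    (hS : ∀ x ∈ S, ∀ y ∈ S, ∀ z ∈ S, x + z = y + y → x = y) : (S.card : ℝ) ≤ 3 * (97 / 100 * p) ^ m := by
  have h4 := capset_slicesP p (by omega) m
    (fun {A I J L} _ _ _ _ _ u U v V w W h => slice_rank_diag u U v V w W h) S hS
  have h5 : (S.card : ℝ) ≤ 3 * ((LowP p m).card : ℝ) := by exact_mod_cast h4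
  have h6 := lowP_uniform p hp3 m
  linarith

end Pool.Agent.H96.SQ
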