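import Mathlib
import Pool.Agent.H96.SQ.Cap

/-!
# Dense sets contain grids, with an explicit dependence on the prime

The argument is that of the library (`Pool.Agent.Helper999.Sq3.grid_of_dense`); the constant is made explicit.
-/

set_option autoImplicit false

namespace Pool.Agent.H96.SQ

open Pool.Agent.Helper999.Sq3

theorem explicit_M {p M : ℕ} (hp : 3 ≤ p) (hM : 6 * (p : ℝ) ≤ (100 / 97) ^ M) (a : ℕ) :
    6 * (p : ℝ) ^ a * (97 / 100 * p) ^ (M * (a + 1)) ≤ (p : ℝ) ^ (M * (a + 1)) := by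
  have hp' : (3 : ℝ) ≤ p := by exact_mod_cast hp
  have hρ : 0 < 97 / 100 * (p : ℝ) := by linarith
  have h3 : (6 * (p : ℝ)) ^ (a + 1) ≤ ((p : ℝ) / (97 / 100 * p)) ^ (M * (a + 1)) := by
    have e : (p : ℝ) / (97 / 100 * p) = 100 / 97 := by field_simp
    rw [e, pow_mul]
    exact pow_le_pow_left₀ (by positivity) hM _
  have h4 : 6 * (p : ℝ) ^ a ≤ (6 * (p : ℝ)) ^ (a + 1) := by
    rw [mul_pow]
    apply mul_le_mul
    · calc (6 : ℝ) = 6 ^ 1 := by norm_num
        _ ≤ 6 ^ (a + 1) := pow_le_pow_right₀ (by norm_num) (by omega)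
    · exact pow_le_pow_right₀ (by linarith) (by omega)
    · positivity
    · positivity
  have h5 := h4.trans h3
  rw [div_pow, le_div_iff₀ (by positivity)] at h5
  exact h5

theorem grid_dense (p : ℕ) [Fact p.Prime] (hp3 : 3 ≤ p) (M : ℕ) (hM : 6 * (p : ℝ) ≤ (100 / 97) ^ M) (K : ℕ) :
    ∀ (a n : ℕ) (A : Finset (Fin n → ZMod p)), p ^ n ≤ p ^ a * A.card →
      (M + 6) ^ K * (a + 1) < n → HasGrid p K (A : Set (Fin n → ZMod p)) := by
  have hp0 : 0 < p := by omega
  induction K with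
  | zero =>
    intro a n A hA _
    have hne : A.Nonempty := by
      by_contra h
      rw [Finset.not_nonempty_iff_eq_empty] at h
      rw [h, Finset.card_empty, mul_zero] at hA
      exact absurd hA (Nat.not_le.mpr (pow_pos hp0 n))
    obtain ⟨x, hx⟩ := hne
    exact ⟨x, Fin.elim0, linearIndependent_empty_type, fun s _ => by simpa using hx⟩
  | succ K ih =>
    intro a n A hA hn
    set C := (M + 6) ^ K with hC
    have hC1 : 1 ≤ C := Nat.one_le_pow _ _ (by omega)
    set m := M * (a + 1) with hm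
    have hpow : (M + 6) ^ (K + 1) * (a + 1) = C * ((M + 6) * (a + 1)) := by rw [pow_succ, hC]; ring
    rw [hpow] at hn
    have hn0 : (M + 6) * (a + 1) = m + 6 * a + 6 := by rw [hm]; ring
    have hn1 : a + m + 2 ≤ n := by
      have h2 : (M + 6) * (a + 1) ≤ C * ((M + 6) * (a + 1)) := Nat.le_mul_of_pos_left _ hC1
      omega
    have hn2 : C * (a + m + 3 + 1) < n := by
      have h2 : C * (a + m + 3 + 1) ≤ C * ((M + 6) * (a + 1)) := Nat.mul_le_mul_left _ (by omega)
      omega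
    have hMa := explicit_M hp3 hM a
    rw [← hm] at hMa
    set c := ⌊3 * (97 / 100 * (p : ℝ)) ^ m⌋₊ with hc
    have hcle : (c : ℝ) ≤ 3 * (97 / 100 * (p : ℝ)) ^ m := Nat.floor_le (by positivity)
    have hc2 : 2 * p ^ a * c ≤ p ^ m := by
      have h1 : (2 * (p : ℝ) ^ a * c) ≤ (p : ℝ) ^ m := by
        calc (2 * (p : ℝ) ^ a * c) ≤ 2 * (p : ℝ) ^ a * (3 * (97 / 100 * (p : ℝ)) ^ m) :=
              mul_le_mul_of_nonneg_left hcle (by positivity)
          _ = 6 * (p : ℝ) ^ a * (97 / 100 * (p : ℝ)) ^ m := by ring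
          _ ≤ _ := hMa
      exact_mod_cast h1
    have hsup := supersatP p n m c A (fun S hS => Nat.le_floor (cap_uniform p hp3 m S hS))
    obtain ⟨h, hh, hAh⟩ := count_step p hp3 A hA hc2 hn1 hsup
    obtain ⟨i, hi⟩ : ∃ i, h i ≠ 0 := by
      by_contra hcon
      push Not at hcon
      exact hh (funext hcon)
    set Ah := (Finset.univ : Finset (Fin n → ZMod p)).filter
        (fun x => x ∈ A ∧ x + h ∈ A ∧ x - h ∈ A) with hAhdef
    have hfib : ∃ c0 : ZMod p, Ah.card ≤ p * (Ah.filter (fun x => x i = c0)).card := by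
      have h1 : Ah.card = ∑ c0 : ZMod p, (Ah.filter (fun x => x i = c0)).card :=
        Finset.card_eq_sum_card_fiberwise (fun x _ => Finset.mem_coe.2 (Finset.mem_univ _))
      have h2 : ∑ _c0 : ZMod p, Ah.card ≤ ∑ c0 : ZMod p, p * (Ah.filter (fun x => x i = c0)).card := by
        rw [Finset.sum_const, Finset.card_univ, ZMod.card, smul_eq_mul, ← Finset.mul_sum, ← h1]
      obtain ⟨c0, -, hc0⟩ := Finset.exists_le_of_sum_le
        (Finset.univ_nonempty (α := ZMod p)) h2
      exact ⟨c0, hc0⟩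
    obtain ⟨c0, hc0⟩ := hfib
    have hB : p ^ n ≤ p ^ (a + m + 3) * (Ah.filter (fun x => x i = c0)).card := by
      calc p ^ n ≤ p ^ (a + m + 2) * Ah.card := hAh
        _ ≤ p ^ (a + m + 2) * (p * (Ah.filter (fun x => x i = c0)).card) :=
            Nat.mul_le_mul_left _ hc0
        _ = _ := by ring
    have hgrid := ih (a + m + 3) n _ hB hn2
    refine cons_grid p hi (c0 := c0) ?_ hgrid
    intro x hx
    rw [Finset.mem_coe, Finset.mem_filter, hAhdef, Finset.mem_filter] at hx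
    exact ⟨hx.1.2.1, hx.1.2.2.1, hx.1.2.2.2, hx.2⟩

end Pool.Agent.H96.SQ
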