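import Mathlib

/-!
# Squares on a line of `𝔽_p[x]`

Four pairwise distinct members `a + t b` of a pencil of coprime polynomials over an algebraically closed field of
characteristic not two can only be squares if `a` and `b` are constant. So a line `{f + t w : t ∈ 𝔽_p}` of `𝔽_p[x]`
contains at most `max (3, (p + 1) / 2)` squares.
-/

set_option autoImplicit false

open Polynomial

namespace Pool.Agent.H96.SQ

variable {k : Type*} [Field k]

theorem isSquare_C_mul [IsAlgClosed k] (c : k) {f : k[X]} (h : IsSquare f) : IsSquare (C c * f) := by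
  obtain ⟨e, he⟩ := IsAlgClosed.exists_pow_nat_eq c (n := 2) (by norm_num)
  obtain ⟨g, rfl⟩ := h
  exact ⟨C e * g, by rw [← he]; simp only [map_pow]; ring⟩

theorem isSquare_of_mul [IsAlgClosed k] {u v : k[X]} (huv : IsCoprime u v) (h : IsSquare (u * v)) :
    IsSquare u := by
  obtain ⟨g, hg⟩ := h
  have hg' : u * v = g ^ 2 := by rw [hg]; ring
  obtain ⟨d, hd⟩ := exists_associated_pow_of_mul_eq_pow' huv hg'
  obtain ⟨w, hw⟩ := hd
  obtain ⟨c, hc, hcw⟩ := Polynomial.isUnit_iff.mp w.isUnit
  rw [← hw, ← hcw]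
  rw [mul_comm]
  exact isSquare_C_mul c ⟨d, by ring⟩

/-- infinite descent -/
theorem const_of_four [IsAlgClosed k] (h2 : (2 : k) ≠ 0) : ∀ (n : ℕ) (a b : k[X]) (t : Fin 4 → k),
    IsCoprime a b → a.natDegree ≤ n → b.natDegree ≤ n → Function.Injective t →
    (∀ i, IsSquare (a + C (t i) * b)) → a.natDegree = 0 ∧ b.natDegree = 0 := by
  intro n
  induction n using Nat.strong_induction_on with
  | _ n ih =>
    intro a b t hab ha hb ht hs
    rcases Nat.eq_zero_or_pos n with hn | hn
    · subst hn; exact ⟨by omega, by omega⟩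
    obtain ⟨u, hu⟩ := hs 0
    obtain ⟨v, hv⟩ := hs 1
    have h10 : t 1 - t 0 ≠ 0 := sub_ne_zero.mpr (ht.ne (by decide))
    have h20 : t 2 - t 0 ≠ 0 := sub_ne_zero.mpr (ht.ne (by decide))
    have h21 : t 2 - t 1 ≠ 0 := sub_ne_zero.mpr (ht.ne (by decide))
    have h30 : t 3 - t 0 ≠ 0 := sub_ne_zero.mpr (ht.ne (by decide))
    have h31 : t 3 - t 1 ≠ 0 := sub_ne_zero.mpr (ht.ne (by decide))
    have h32 : t 3 - t 2 ≠ 0 := sub_ne_zero.mpr (ht.ne (by decide))
    -- `b` and `a` from `u ^ 2`, `v ^ 2`
    have eb : C (t 1 - t 0) * b = v * v - u * u := by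
      rw [← hu, ← hv, C_sub]; ring
    have ea : C (t 1 - t 0) * a = C (t 1) * (u * u) - C (t 0) * (v * v) := by
      rw [← hu, ← hv, C_sub]; ring
    have huv : IsCoprime u v := by
      have h1 : IsCoprime (u * u) (v * v) := by
        obtain ⟨x, y, hxy⟩ := hab
        refine ⟨C (t 1 - t 0)⁻¹ * (x * C (t 1) - y), C (t 1 - t 0)⁻¹ * (y - x * C (t 0)), ?_⟩
        have e1 : C (t 1 - t 0)⁻¹ * C (t 1 - t 0) = 1 := by
          rw [← C_mul, inv_mul_cancel₀ h10, C_1]
        calc C (t 1 - t 0)⁻¹ * (x * C (t 1) - y) * (u * u) + C (t 1 - t 0)⁻¹ * (y - x * C (t 0)) * (v * v)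
            = C (t 1 - t 0)⁻¹ * (x * (C (t 1) * (u * u) - C (t 0) * (v * v)) + y * (v * v - u * u)) := by ring
          _ = C (t 1 - t 0)⁻¹ * (x * (C (t 1 - t 0) * a) + y * (C (t 1 - t 0) * b)) := by rw [ea, eb]
          _ = (C (t 1 - t 0)⁻¹ * C (t 1 - t 0)) * (x * a + y * b) := by ring
          _ = 1 := by rw [e1, hxy, one_mul]
      exact (IsCoprime.of_mul_left_left h1).of_mul_right_left
    -- the degrees of `u`, `v`
    have hdeg : ∀ (c : k) (z : k[X]), a + C c * b = z * z → z.natDegree ≤ n - 1 := by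
      intro c z hz
      have h1 : (a + C c * b).natDegree ≤ n := by
        refine (natDegree_add_le _ _).trans (max_le ha ((natDegree_C_mul_le _ _).trans hb))
      rw [hz, ← pow_two, natDegree_pow] at h1
      omega
    have hdu := hdeg _ _ hu
    have hdv := hdeg _ _ hv
    -- the two square roots
    have root : ∀ i : Fin 4, t i - t 0 ≠ 0 → t i - t 1 ≠ 0 → ∃ s : k, s ^ 2 = (t i - t 0) / (t i - t 1) ∧ s ≠ 0 ∧
        IsSquare (u + C s * v) ∧ IsSquare (u + C (-s) * v) := by
      intro i hi0 hi1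
      obtain ⟨s, hs'⟩ := IsAlgClosed.exists_pow_nat_eq ((t i - t 0) / (t i - t 1)) (n := 2) (by norm_num)
      have hs0 : s ≠ 0 := by
        intro h0
        rw [h0] at hs'
        have : (t i - t 0) / (t i - t 1) ≠ 0 := div_ne_zero hi0 hi1
        exact this (by rw [← hs']; ring)
      have hcop : IsCoprime (u + C s * v) (u + C (-s) * v) := by
        obtain ⟨x, y, hxy⟩ := huv
        -- `u = ((u + s v) + (u - s v)) / 2`, `v = ((u + s v) - (u - s v)) / (2 s)`
        refine ⟨C (2⁻¹) * x + C ((2 * s)⁻¹) * y, C (2⁻¹) * x - C ((2 * s)⁻¹) * y, ?_⟩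
        have e1 : (C (2⁻¹ : k)) * 2 = (1 : k[X]) := by
          have : (2 : k[X]) = C 2 := rfl
          rw [this, ← C_mul, inv_mul_cancel₀ h2, C_1]
        have e2 : C ((2 * s)⁻¹) * (2 * C s) = (1 : k[X]) := by
          have : (2 : k[X]) = C 2 := rfl
          rw [this, ← C_mul, ← C_mul, inv_mul_cancel₀ (mul_ne_zero h2 hs0), C_1]
        have e3 : (C (-s) : k[X]) = - C s := by simp
        rw [e3]
        calc (C (2⁻¹) * x + C ((2 * s)⁻¹) * y) * (u + C s * v) + (C (2⁻¹) * x - C ((2 * s)⁻¹) * y) * (u + -C s * v)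
            = (C (2⁻¹ : k) * 2) * (x * u) + (C ((2 * s)⁻¹) * (2 * C s)) * (y * v) := by ring
          _ = 1 := by rw [e1, e2, one_mul, one_mul]; exact hxy
      have hprod : IsSquare ((u + C s * v) * (u + C (-s) * v)) := by
        have e3 : (C (-s) : k[X]) = - C s := by simp
        have e4 : (u + C s * v) * (u + C (-s) * v) = u * u - C (s ^ 2) * (v * v) := by
          rw [e3, C_pow]; ring
        have e5 : C (t 1 - t i) * (u * u - C (s ^ 2) * (v * v)) = C (t 1 - t 0) * (a + C (t i) * b) := by
          have e6 : C (t 1 - t i) * C (s ^ 2) = C (t 0 - t i) := by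
            rw [← C_mul, hs']
            congr 1
            field_simp
            ring
          calc C (t 1 - t i) * (u * u - C (s ^ 2) * (v * v))
              = C (t 1 - t i) * (u * u) - (C (t 1 - t i) * C (s ^ 2)) * (v * v) := by ring
            _ = C (t 1 - t i) * (u * u) - C (t 0 - t i) * (v * v) := by rw [e6]
            _ = (C (t 1) * (u * u) - C (t 0) * (v * v)) + C (t i) * (v * v - u * u) := by
                simp only [C_sub]; ring
            _ = C (t 1 - t 0) * a + C (t i) * (C (t 1 - t 0) * b) := by rw [ea, eb]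
            _ = _ := by ring
        have e7 : u * u - C (s ^ 2) * (v * v) = C ((t 1 - t i)⁻¹ * (t 1 - t 0)) * (a + C (t i) * b) := by
          have h1i : t 1 - t i ≠ 0 := by
            intro h; apply hi1; linear_combination -h
          calc u * u - C (s ^ 2) * (v * v) = C ((t 1 - t i)⁻¹) * (C (t 1 - t i) * (u * u - C (s ^ 2) * (v * v))) := by
                rw [← mul_assoc (C ((t 1 - t i)⁻¹)), ← C_mul, inv_mul_cancel₀ h1i, C_1, one_mul]
            _ = C ((t 1 - t i)⁻¹) * (C (t 1 - t 0) * (a + C (t i) * b)) := by rw [e5]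
            _ = _ := by rw [← mul_assoc (C ((t 1 - t i)⁻¹)), ← C_mul]
        rw [e4, e7]
        exact isSquare_C_mul _ (hs i)
      exact ⟨s, hs', hs0, isSquare_of_mul hcop hprod, isSquare_of_mul hcop.symm (by rw [mul_comm]; exact hprod)⟩
    obtain ⟨s, hs1, hs0, hs2, hs3⟩ := root 2 h20 h21
    obtain ⟨r, hr1, hr0, hr2, hr3⟩ := root 3 h30 h31
    have hsr : s ^ 2 ≠ r ^ 2 := by
      rw [hs1, hr1]
      intro h
      rw [div_eq_div_iff h21 h31] at h
      have : (t 3 - t 2) * (t 1 - t 0) = 0 := by linear_combination h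
      exact (mul_ne_zero h32 h10) this
    have hss : s ≠ -s := by
      intro h
      have : (2 : k) * s = 0 := by linear_combination h
      exact (mul_ne_zero h2 hs0) this
    have hrr : r ≠ -r := by
      intro h
      have : (2 : k) * r = 0 := by linear_combination h
      exact (mul_ne_zero h2 hr0) this
    have h5 := ih (n - 1) (by omega) u v ![s, -s, r, -r] huv hdu hdv (by
      intro i j hij
      fin_cases i <;> fin_cases j <;> simp at hij ⊢
      all_goals first
        | exact absurd hij hss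
        | exact absurd hij.symm hss
        | exact absurd hij hrr
        | exact absurd hij.symm hrr
        | (exfalso; apply hsr; rw [hij]; done)
        | (exfalso; apply hsr; rw [← hij]; done)
        | (exfalso; apply hsr; rw [hij]; ring)
        | (exfalso; apply hsr; rw [← hij]; ring)) (by
      intro i
      fin_cases i
      · exact hs2
      · exact hs3
      · exact hr2
      · exact hr3)
    obtain ⟨h6, h7⟩ := h5
    have huu : (u * u).natDegree ≤ 0 := by rw [← pow_two, natDegree_pow, h6]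
    have hvv : (v * v).natDegree ≤ 0 := by rw [← pow_two, natDegree_pow, h7]
    have e1 : b = C (t 1 - t 0)⁻¹ * (v * v - u * u) := by
      rw [← eb, ← mul_assoc, ← C_mul, inv_mul_cancel₀ h10, C_1, one_mul]
    have e2 : a = C (t 1 - t 0)⁻¹ * (C (t 1) * (u * u) - C (t 0) * (v * v)) := by
      rw [← ea, ← mul_assoc, ← C_mul, inv_mul_cancel₀ h10, C_1, one_mul]
    constructor
    · rw [e2]
      have := (natDegree_C_mul_le (t 1 - t 0)⁻¹ (C (t 1) * (u * u) - C (t 0) * (v * v))).trans
        ((natDegree_sub_le _ _).trans (max_le ((natDegree_C_mul_le _ _).trans huu) ((natDegree_C_mul_le _ _).trans hvv)))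
      omega
    · rw [e1]
      have := (natDegree_C_mul_le (t 1 - t 0)⁻¹ (v * v - u * u)).trans
        ((natDegree_sub_le _ _).trans (max_le hvv huu))
      omega

end Pool.Agent.H96.SQ
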