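import Mathlib
import Pool.Agent.H96.SQ.Line

set_option autoImplicit false

open Polynomial

namespace Pool.Agent.H96.SQ

variable {F : Type*} [Field F]

theorem isSquare_of_C (n : F) (h : IsSquare (C n)) : IsSquare n := by
  by_cases hn : n = 0
  · subst hn; exact ⟨0, by simp⟩
  obtain ⟨z, hz⟩ := h
  have hz0 : z ≠ 0 := by
    rintro rfl
    rw [mul_zero] at hz
    exact hn (C_eq_zero.1 hz)
  have hd : z.natDegree = 0 := by
    have := congrArg natDegree hz
    rw [natDegree_C, natDegree_mul hz0 hz0] at this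
    omega
  obtain ⟨c, hc⟩ := natDegree_eq_zero.1 hd
  refine ⟨c, ?_⟩
  rw [← hc, ← C_mul] at hz
  exact C_injective hz

/-- cancel a common factor of two squares -/
theorem isSquare_mul_of {g x y : F[X]} (hg : g ≠ 0) (hx : IsSquare (g * x)) (hy : IsSquare (g * y)) :
    IsSquare (x * y) := by
  obtain ⟨u, hu⟩ := hx
  obtain ⟨v, hv⟩ := hy
  have h1 : g ^ 2 * (x * y) = (u * v) ^ 2 := by
    calc g ^ 2 * (x * y) = (g * x) * (g * y) := by ring
      _ = (u * v) ^ 2 := by rw [hu, hv]; ring
  have h2 : g ∣ u * v := (IsIntegrallyClosed.pow_dvd_pow_iff (two_ne_zero)).1 ⟨x * y, h1.symm⟩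
  obtain ⟨z, hz⟩ := h2
  refine ⟨z, ?_⟩
  apply mul_left_cancel₀ (pow_ne_zero 2 hg)
  rw [h1, hz]; ring

/-- a line which does not pass through the origin contains at most three squares; the other lines contain at most
`(q + 1) / 2` squares -/
theorem line_card [Fintype F] (h2 : (2 : F) ≠ 0) (f w : F[X]) (hw : w ≠ 0) (T : Finset F)
    (hT : ∀ t ∈ T, IsSquare (f + C t * w)) :
    T.card ≤ 3 ∨ (2 * T.card ≤ Fintype.card F + 1 ∧ ∃ c : F, f = C c * w) := by
  classical
  rcases Nat.lt_or_ge 3 T.card with h4 | h4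
  swap
  · exact Or.inl h4
  right
  set g := EuclideanDomain.gcd f w with hg
  obtain ⟨a, ha⟩ := EuclideanDomain.gcd_dvd_left f w
  obtain ⟨b, hb⟩ := EuclideanDomain.gcd_dvd_right f w
  rw [← hg] at ha hb
  have hg0 : g ≠ 0 := by
    intro h0
    rw [h0, zero_mul] at hb
    exact hw hb
  have hab : IsCoprime a b := by
    refine ⟨EuclideanDomain.gcdA f w, EuclideanDomain.gcdB f w, ?_⟩
    have h1 := EuclideanDomain.gcd_eq_gcd_ab f w
    rw [← hg] at h1
    apply mul_left_cancel₀ hg0
    calc g * (EuclideanDomain.gcdA f w * a + EuclideanDomain.gcdB f w * b)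
        = (g * a) * EuclideanDomain.gcdA f w + (g * b) * EuclideanDomain.gcdB f w := by ring
      _ = f * EuclideanDomain.gcdA f w + w * EuclideanDomain.gcdB f w := by rw [← ha, ← hb]
      _ = g * 1 := by rw [← h1, mul_one]
  have hfac : ∀ t : F, f + C t * w = g * (a + C t * b) := by
    intro t
    calc f + C t * w = g * a + C t * (g * b) := by rw [← ha, ← hb]
      _ = _ := by ring
  -- four values
  let t : Fin 4 → F := fun i => (T.equivFin.symm (Fin.castLE h4 i) : F)
  have htinj : Function.Injective t := by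
    intro i j hij
    have h1 := T.equivFin.symm.injective (Subtype.ext hij)
    exact Fin.castLE_injective h4 h1
  have htT : ∀ i, t i ∈ T := fun i => (T.equivFin.symm (Fin.castLE h4 i)).2
  -- over the algebraic closure
  set φ : F →+* AlgebraicClosure F := algebraMap F (AlgebraicClosure F) with hφ
  have hφi : Function.Injective φ := φ.injective
  have h2' : (2 : AlgebraicClosure F) ≠ 0 := by
    intro h
    apply h2
    apply hφi
    rw [map_zero, map_ofNat]
    exact h
  have hcopT : ∀ s r : F, s ≠ r → IsCoprime (a + C s * b) (a + C r * b) := by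
    intro s r hsr
    obtain ⟨x, y, hxy⟩ := hab
    have hrs : r - s ≠ 0 := sub_ne_zero.mpr (Ne.symm hsr)
    refine ⟨C (r - s)⁻¹ * (x * C r - y), C (r - s)⁻¹ * (y - x * C s), ?_⟩
    have e1 : C (r - s)⁻¹ * C (r - s) = (1 : F[X]) := by
      rw [← C_mul, inv_mul_cancel₀ hrs, C_1]
    calc C (r - s)⁻¹ * (x * C r - y) * (a + C s * b) + C (r - s)⁻¹ * (y - x * C s) * (a + C r * b)
        = (C (r - s)⁻¹ * (C r - C s)) * (x * a + y * b) := by ring
      _ = 1 := by rw [← C_sub, e1, hxy, one_mul]
  have hsqT : ∀ s ∈ T, ∀ r ∈ T, s ≠ r → IsSquare ((a + C s * b).map φ) := by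
    intro s hs r hr hsr
    have h5 : IsSquare ((a + C s * b) * (a + C r * b)) :=
      isSquare_mul_of hg0 (by rw [← hfac]; exact hT s hs) (by rw [← hfac]; exact hT r hr)
    have h6 : IsSquare (((a + C s * b).map φ) * ((a + C r * b).map φ)) := by
      rw [← Polynomial.map_mul]
      obtain ⟨z, hz⟩ := h5
      exact ⟨z.map φ, by rw [hz, Polynomial.map_mul]⟩
    have h7 : IsCoprime ((a + C s * b).map φ) ((a + C r * b).map φ) := by
      obtain ⟨x, y, hxy⟩ := hcopT s r hsr
      refine ⟨x.map φ, y.map φ, ?_⟩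
      rw [← Polynomial.map_mul, ← Polynomial.map_mul, ← Polynomial.map_add, hxy, Polynomial.map_one]
    exact isSquare_of_mul h7 h6
  have hcopφ : IsCoprime (a.map φ) (b.map φ) := by
    obtain ⟨x, y, hxy⟩ := hab
    refine ⟨x.map φ, y.map φ, ?_⟩
    rw [← Polynomial.map_mul, ← Polynomial.map_mul, ← Polynomial.map_add, hxy, Polynomial.map_one]
  have hconst := const_of_four h2' (max (a.map φ).natDegree (b.map φ).natDegree) (a.map φ) (b.map φ)
    (fun i => φ (t i)) hcopφ (le_max_left _ _) (le_max_right _ _) (hφi.comp htinj) (by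
      intro i
      have h8 : (a.map φ) + C (φ (t i)) * (b.map φ) = (a + C (t i) * b).map φ := by
        rw [Polynomial.map_add, Polynomial.map_mul, Polynomial.map_C]
      rw [h8]
      obtain ⟨j, hj⟩ : ∃ j : Fin 4, j ≠ i := by
        by_cases h0 : i = 0
        · exact ⟨1, by rw [h0]; decide⟩
        · exact ⟨0, fun h => h0 h.symm⟩
      exact hsqT _ (htT i) _ (htT j) (fun h => hj (htinj h).symm))
  obtain ⟨hda, hdb⟩ := hconst
  rw [natDegree_map] at hda hdb
  obtain ⟨α, hα⟩ := natDegree_eq_zero.1 hda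
  obtain ⟨β, hβ⟩ := natDegree_eq_zero.1 hdb
  have hβ0 : β ≠ 0 := by
    rintro rfl
    rw [C_0] at hβ
    rw [← hβ, mul_zero] at hb
    exact hw hb
  refine ⟨?_, α / β, by
    rw [ha, hb, ← hα, ← hβ]
    have e : C (α / β) * (g * C β) = g * C ((α / β) * β) := by rw [C_mul]; ring
    rw [e, div_mul_cancel₀ _ hβ0]⟩
  -- the values `α + t β`
  have hsq2 : ∀ s ∈ T, ∀ r ∈ T, IsSquare ((α + s * β) * (α + r * β)) := by
    intro s hs r hr
    have h5 : IsSquare ((a + C s * b) * (a + C r * b)) :=
      isSquare_mul_of hg0 (by rw [← hfac]; exact hT s hs) (by rw [← hfac]; exact hT r hr)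
    rw [← hα, ← hβ, ← C_mul, ← C_mul, ← C_add, ← C_add, ← C_mul] at h5
    exact isSquare_of_C _ h5
  set R : Finset F := (T.image (fun s => α + s * β)).erase 0 with hR
  have hRcard : T.card ≤ R.card + 1 := by
    have h1 : (T.image (fun s => α + s * β)).card = T.card := by
      apply Finset.card_image_of_injective
      intro x y hxy
      have : x * β = y * β := by simpa using hxy
      exact mul_right_cancel₀ hβ0 this
    rw [← h1]
    have h3 : (T.image (fun s => α + s * β)).card - 1 ≤ R.card := by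
      rw [hR]; exact Finset.pred_card_le_card_erase
    omega
  have hRne : R.Nonempty := Finset.card_pos.1 (by omega)
  obtain ⟨r0, hr0⟩ := hRne
  have hr00 : r0 ≠ 0 := (Finset.mem_erase.1 hr0).1
  have hRsq : ∀ r ∈ R, r ≠ 0 ∧ IsSquare (r * r0) := by
    intro r hr
    refine ⟨(Finset.mem_erase.1 hr).1, ?_⟩
    obtain ⟨s, hs, rfl⟩ := Finset.mem_image.1 (Finset.mem_erase.1 hr).2
    obtain ⟨s', hs', e⟩ := Finset.mem_image.1 (Finset.mem_erase.1 hr0).2
    rw [← e]
    exact hsq2 s hs s' hs'
  have hchar : ringChar F ≠ 2 := by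
    intro h
    apply h2
    have := ringChar.Nat.cast_ringChar (R := F)
    rw [h] at this
    exact_mod_cast this
  obtain ⟨n, hn⟩ := FiniteField.exists_nonsquare (F := F) hchar
  have hn0 : n ≠ 0 := by rintro rfl; exact hn ⟨0, by simp⟩
  have hdisj : Disjoint R (R.image (fun r => n * r)) := by
    rw [Finset.disjoint_left]
    intro x hx hx'
    obtain ⟨r, hr, rfl⟩ := Finset.mem_image.1 hx'
    obtain ⟨-, u, hu⟩ := hRsq _ hx
    obtain ⟨hr1, v, hv⟩ := hRsq r hr
    have hv0 : v ≠ 0 := by
      rintro rfl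
      rw [mul_zero] at hv
      exact (mul_ne_zero hr1 hr00) hv
    apply hn
    refine ⟨u / v, ?_⟩
    field_simp
    calc n * v ^ 2 = n * (r * r0) := by rw [hv]; ring
      _ = u ^ 2 := by rw [← mul_assoc, hu]; ring
  have hsub : R ∪ R.image (fun r => n * r) ⊆ (Finset.univ : Finset F).erase 0 := by
    intro x hx
    rw [Finset.mem_erase]
    refine ⟨?_, Finset.mem_univ _⟩
    rcases Finset.mem_union.1 hx with h | h
    · exact (hRsq x h).1
    · obtain ⟨r, hr, rfl⟩ := Finset.mem_image.1 h
      exact mul_ne_zero hn0 (hRsq r hr).1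
  have h9 := Finset.card_le_card hsub
  rw [Finset.card_union_of_disjoint hdisj, Finset.card_image_of_injective _ (mul_right_injective₀ hn0),
    Finset.card_erase_of_mem (Finset.mem_univ _), Finset.card_univ] at h9
  have : 0 < Fintype.card F := Fintype.card_pos
  omega

end Pool.Agent.H96.SQ
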