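import Mathlib
import Pool.Agent.H96.SQ.LineCard
import Pool.Graph.R_seed8.Helper730.Kneser

/-!
# Sets of squares of `𝔽_p[x]` satisfy the inequality `|A + B| ≥ |A| + |B| - 1` of torsion-free groups
-/

set_option autoImplicit false

open Polynomial Pointwise

namespace Pool.Agent.H96.SQ

open Pool.Agent.Helper730.Kneser

/-- every line contains at most three points of `A`, except for lines through the origin, which contain at most
`(p + 1) / 2` points -/
def LineBound (p : ℕ) {W : Type*} [AddCommGroup W] [Module (ZMod p) W] (A : Finset W) : Prop :=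
  ∀ (f w : W) (T : Finset (ZMod p)), w ≠ 0 → (∀ t ∈ T, f + t • w ∈ A) →
    T.card ≤ 3 ∨ (2 * T.card ≤ p + 1 ∧ ∃ c : ZMod p, f = c • w)

/-- A coset of a nontrivial finite subgroup `K` contains at most `(|K| + 1) / 2` points of `A`. -/
theorem coset_bound {p : ℕ} [Fact p.Prime] (hp : 5 ≤ p) {W : Type*} [AddCommGroup W] [Module (ZMod p) W] [Fintype W]
    [DecidableEq W] (A : Finset W) (hline : LineBound p A) (K : AddSubgroup W) (hK : K ≠ ⊥) (x : W) :
    2 * ((fs K).filter (fun h => x + h ∈ A)).card ≤ (fs K).card + 1 := by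
  classical
  set S := (fs K).filter (fun h => x + h ∈ A) with hS
  have hsmul : ∀ w ∈ K, ∀ t : ZMod p, t • w ∈ K := by
    intro w hw t
    have h2 : (t.val : ℕ) • w = t • w := by
      rw [← Nat.cast_smul_eq_nsmul (ZMod p), ZMod.natCast_zmod_val]
    rw [← h2]
    exact K.nsmul_mem hw _
  have hpos := fs_card_pos K
  by_cases h0 : ∀ h ∈ S, x + h = 0
  · have : S.card ≤ 1 := by
      rw [Finset.card_le_one]
      intro a ha b hb
      exact add_left_cancel ((h0 a ha).trans (h0 b hb).symm)
    omega
  push Not at h0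
  obtain ⟨h0, hh0, hs0⟩ := h0
  set s := x + h0 with hs
  have hh0K : h0 ∈ K := mem_fs.1 (Finset.mem_filter.1 hh0).1
  have hsA : s ∈ A := (Finset.mem_filter.1 hh0).2
  -- `|K| ≥ p`
  have hKp : p ≤ (fs K).card := by
    obtain ⟨w, hw⟩ := AddSubgroup.ne_bot_iff_exists_ne_zero.1 hK
    have hw0 : (w : W) ≠ 0 := fun h => hw (Subtype.ext h)
    have h1 : ((Finset.univ : Finset (ZMod p)).image (fun t => t • (w : W))) ⊆ fs K := by
      intro y hy
      obtain ⟨t, -, rfl⟩ := Finset.mem_image.1 hy
      exact mem_fs.2 (hsmul _ w.2 t)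
    have h2 := Finset.card_le_card h1
    rw [Finset.card_image_of_injective _ (smul_left_injective (ZMod p) hw0), Finset.card_univ, ZMod.card] at h2
    exact h2
  set P : W → ℕ := fun w => (((Finset.univ : Finset (ZMod p)).erase 0).filter (fun t => s + t • w ∈ A)).card with hP
  -- the double count
  have hcount : ∑ w ∈ (fs K).erase 0, P w = (p - 1) * (S.card - 1) := by
    have h1 : ∀ t ∈ (Finset.univ : Finset (ZMod p)).erase 0,
        (((fs K).erase 0).filter (fun w => s + t • w ∈ A)).card = S.card - 1 := by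
      intro t ht
      have ht0 : t ≠ 0 := (Finset.mem_erase.1 ht).1
      rw [← Finset.card_erase_of_mem hh0]
      apply Finset.card_bij (fun w _ => h0 + t • w)
      · intro w hw
        rw [Finset.mem_filter, Finset.mem_erase, mem_fs] at hw
        rw [Finset.mem_erase, hS, Finset.mem_filter, mem_fs]
        refine ⟨?_, K.add_mem hh0K (hsmul _ hw.1.2 t), ?_⟩
        · intro h
          have : t • w = 0 := by
            have := congrArg (fun z => z - h0) h
            simpa using this
          rcases smul_eq_zero.1 this with h | h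
          · exact ht0 h
          · exact hw.1.1 h
        · rw [← add_assoc]; exact hw.2
      · intro w _ w' _ h
        have := add_left_cancel h
        exact smul_right_injective W ht0 this
      · intro y hy
        rw [Finset.mem_erase, hS, Finset.mem_filter, mem_fs] at hy
        have hmul : t • (t⁻¹ • (y - h0)) = y - h0 := by rw [smul_smul, mul_inv_cancel₀ ht0, one_smul]
        refine ⟨t⁻¹ • (y - h0), ?_, ?_⟩
        · rw [Finset.mem_filter, Finset.mem_erase, mem_fs, hmul]
          refine ⟨⟨?_, hsmul _ (K.sub_mem hy.2.1 hh0K) _⟩, ?_⟩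
          · intro h
            rcases smul_eq_zero.1 h with h | h
            · exact ht0 (inv_eq_zero.1 h)
            · exact hy.1 (sub_eq_zero.1 h)
          · have : s + (y - h0) = x + y := by rw [hs]; abel
            rw [this]; exact hy.2.2
        · rw [hmul]; abel
    calc ∑ w ∈ (fs K).erase 0, P w
        = ∑ w ∈ (fs K).erase 0, ∑ t ∈ (Finset.univ : Finset (ZMod p)).erase 0, (if s + t • w ∈ A then 1 else 0) := by
          apply Finset.sum_congr rfl; intro w _; rw [hP]; simp only [Finset.card_filter]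
      _ = ∑ t ∈ (Finset.univ : Finset (ZMod p)).erase 0, ∑ w ∈ (fs K).erase 0, (if s + t • w ∈ A then 1 else 0) :=
          Finset.sum_comm
      _ = ∑ t ∈ (Finset.univ : Finset (ZMod p)).erase 0, (((fs K).erase 0).filter (fun w => s + t • w ∈ A)).card := by
          apply Finset.sum_congr rfl; intro t _; rw [Finset.card_filter]
      _ = ∑ _t ∈ (Finset.univ : Finset (ZMod p)).erase 0, (S.card - 1) := Finset.sum_congr rfl h1
      _ = (p - 1) * (S.card - 1) := by
          rw [Finset.sum_const, Finset.card_erase_of_mem (Finset.mem_univ _), Finset.card_univ, ZMod.card,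
            smul_eq_mul]
  -- the bound for one direction
  have hdir : ∀ w ∈ (fs K).erase 0, 2 * P w ≤ 4 + (if (∃ c : ZMod p, s = c • w) then (p - 5) else 0) := by
    intro w hw
    have hw0 : w ≠ 0 := (Finset.mem_erase.1 hw).1
    have h1 := hline s w ((Finset.univ : Finset (ZMod p)).filter (fun t => s + t • w ∈ A)) hw0
      (fun t ht => (Finset.mem_filter.1 ht).2)
    have h2 : ((Finset.univ : Finset (ZMod p)).filter (fun t => s + t • w ∈ A)).card = P w + 1 := by
      rw [hP]
      simp only
      rw [Finset.filter_erase, Finset.card_erase_of_mem (by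
        rw [Finset.mem_filter, zero_smul, add_zero]; exact ⟨Finset.mem_univ _, hsA⟩)]
      have : 0 < ((Finset.univ : Finset (ZMod p)).filter (fun t => s + t • w ∈ A)).card :=
        Finset.card_pos.2 ⟨0, by rw [Finset.mem_filter, zero_smul, add_zero]; exact ⟨Finset.mem_univ _, hsA⟩⟩
      omega
    rw [h2] at h1
    rcases h1 with h1 | ⟨h1, h3⟩
    · omega
    · rw [if_pos h3]; omega
  have hnum : (((fs K).erase 0).filter (fun w => ∃ c : ZMod p, s = c • w)).card ≤ p - 1 := by
    have h1 : (((fs K).erase 0).filter (fun w => ∃ c : ZMod p, s = c • w)) ⊆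
        ((Finset.univ : Finset (ZMod p)).erase 0).image (fun c => c • s) := by
      intro w hw
      rw [Finset.mem_filter] at hw
      obtain ⟨c, hc⟩ := hw.2
      have hc0 : c ≠ 0 := by
        rintro rfl
        rw [zero_smul] at hc
        exact hs0 hc
      refine Finset.mem_image.2 ⟨c⁻¹, Finset.mem_erase.2 ⟨inv_ne_zero hc0, Finset.mem_univ _⟩, ?_⟩
      show c⁻¹ • s = w
      rw [hc, smul_smul, inv_mul_cancel₀ hc0, one_smul]
    refine (Finset.card_le_card h1).trans (Finset.card_image_le.trans ?_)
    rw [Finset.card_erase_of_mem (Finset.mem_univ _), Finset.card_univ, ZMod.card]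
  have hsum : 2 * ((p - 1) * (S.card - 1)) ≤ 4 * ((fs K).card - 1) + (p - 1) * (p - 5) := by
    rw [← hcount, Finset.mul_sum]
    refine (Finset.sum_le_sum hdir).trans ?_
    rw [Finset.sum_add_distrib, Finset.sum_const, Finset.card_erase_of_mem (mem_fs.2 K.zero_mem), smul_eq_mul,
      ← Finset.sum_filter, Finset.sum_const, smul_eq_mul]
    have := Nat.mul_le_mul_right (p - 5) hnum
    linarith
  obtain ⟨q, hq⟩ : ∃ q, p = q + 5 := ⟨p - 5, by omega⟩
  obtain ⟨y, hy⟩ : ∃ y, (fs K).card = y + (q + 5) := ⟨(fs K).card - (q + 5), by omega⟩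
  rw [hy] at hsum ⊢
  rw [hq] at hsum
  have e1 : q + 5 - 1 = q + 4 := by omega
  have e2 : q + 5 - 5 = q := by omega
  have e3 : y + (q + 5) - 1 = y + q + 4 := by omega
  rw [e1, e2, e3] at hsum
  have hSpos : 0 < S.card := Finset.card_pos.2 ⟨h0, hh0⟩
  obtain ⟨z, hz⟩ : ∃ z, S.card = z + 1 := ⟨S.card - 1, by omega⟩
  rw [hz] at hsum ⊢
  rw [Nat.add_sub_cancel] at hsum
  have h9 : (q + 4) * (2 * z) ≤ (q + 4) * (y + q + 4) := by nlinarith
  have h10 := Nat.le_of_mul_le_mul_left h9 (by omega)
  omega

/-- in a finite group -/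
theorem sum_fin {p : ℕ} [Fact p.Prime] (hp : 5 ≤ p) {W : Type*} [AddCommGroup W] [Module (ZMod p) W] [Fintype W]
    [DecidableEq W] (A B : Finset W) (hA : A.Nonempty) (hB : B.Nonempty) (lA : LineBound p A) (lB : LineBound p B) :
    A.card + B.card ≤ (A + B).card + 1 := by
  classical
  by_cases hst : stab (A + B) = ⊥
  · exact kneser_aperiodic A B hA hB hst
  set K := stab (A + B) with hK
  have hkn := kneser' A B hA hB
  rw [← hK] at hkn
  have hh : 0 < (fs K).card := fs_card_pos K
  -- double counting
  have hcount : ∀ C : Finset W, LineBound p C → 2 * (C.card * (fs K).card) ≤ (C + fs K).card * ((fs K).card + 1) := by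
    intro C lC
    have h1 : ∑ x ∈ C + fs K, ((fs K).filter (fun h => x + h ∈ C)).card = C.card * (fs K).card := by
      have h2 : ∀ h ∈ fs K, ((C + fs K).filter (fun x => x + h ∈ C)).card = C.card := by
        intro h hhK
        apply Finset.card_bij (fun x _ => x + h)
        · intro x hx; exact (Finset.mem_filter.1 hx).2
        · intro x _ y _ hxy; exact add_right_cancel hxy
        · intro x hx
          refine ⟨x + -h, ?_, by abel⟩
          rw [Finset.mem_filter]
          refine ⟨Finset.add_mem_add hx (mem_fs.2 (K.neg_mem (mem_fs.1 hhK))), ?_⟩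
          have : x + -h + h = x := by abel
          rw [this]; exact hx
      calc ∑ x ∈ C + fs K, ((fs K).filter (fun h => x + h ∈ C)).card
          = ∑ x ∈ C + fs K, ∑ h ∈ fs K, (if x + h ∈ C then 1 else 0) := by
            apply Finset.sum_congr rfl; intro x _; rw [Finset.card_filter]
        _ = ∑ h ∈ fs K, ∑ x ∈ C + fs K, (if x + h ∈ C then 1 else 0) := Finset.sum_comm
        _ = ∑ h ∈ fs K, ((C + fs K).filter (fun x => x + h ∈ C)).card := by
            apply Finset.sum_congr rfl; intro h _; rw [Finset.card_filter]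
        _ = ∑ _h ∈ fs K, C.card := Finset.sum_congr rfl h2
        _ = C.card * (fs K).card := by rw [Finset.sum_const, smul_eq_mul, mul_comm]
    rw [← h1, Finset.mul_sum, ← smul_eq_mul (a := (C + fs K).card), ← Finset.sum_const]
    exact Finset.sum_le_sum (fun x _ => coset_bound hp C lC K hst x)
  have hcA := hcount A lA
  have hcB := hcount B lB
  have hMA : (fs K).card ≤ (A + fs K).card := Finset.card_le_card_add_left hA
  have hMB : (fs K).card ≤ (B + fs K).card := Finset.card_le_card_add_left hB
  by_contra hcon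
  push Not at hcon
  set h := (fs K).card
  set MA := (A + fs K).card
  set MB := (B + fs K).card
  set a := A.card
  set b := B.card
  have h5 : MA + MB + 2 ≤ a + b + h := by omega
  have h6 : 2 * ((a + b) * h) ≤ (MA + MB) * (h + 1) := by linarith
  have h7 : 2 * ((MA + MB + 2) * h) ≤ 2 * ((a + b + h) * h) := by
    have := Nat.mul_le_mul_right h h5
    omega
  have h8 : 2 * ((MA + MB + 2) * h) ≤ (MA + MB) * (h + 1) + 2 * (h * h) := by nlinarith
  obtain ⟨u, hu⟩ : ∃ u, MA + MB = 2 * h + u := ⟨MA + MB - 2 * h, by omega⟩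
  rw [hu] at h8
  nlinarith

theorem sum_of_line {p : ℕ} [Fact p.Prime] (hp : 5 ≤ p) {V : Type*} [AddCommGroup V] [Module (ZMod p) V]
    [DecidableEq V] (A B : Finset V) (hA : A.Nonempty) (hB : B.Nonempty) (lA : LineBound p A) (lB : LineBound p B) :
    A.card + B.card ≤ (A + B).card + 1 := by
  classical
  let W := Submodule.span (ZMod p) ((A ∪ B : Finset V) : Set V)
  have hfin : Module.Finite (ZMod p) W := Module.Finite.span_finset (ZMod p) (A ∪ B)
  have hfin' : Finite W := Module.finite_of_finite (ZMod p)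
  let _ : Fintype W := Fintype.ofFinite W
  let ι : W →+ V := W.subtype.toAddMonoidHom
  have hι : Function.Injective ι := Subtype.val_injective
  have key : ∀ C : Finset V, C ⊆ A ∪ B → LineBound p C → ∃ C' : Finset W, C'.image ι = C ∧ LineBound p C' := by
    intro C hC lC
    have hCs : ∀ x ∈ C, x ∈ W := fun x hx => Submodule.subset_span (Finset.mem_coe.2 (hC hx))
    refine ⟨C.attach.image (fun x => (⟨x.1, hCs x.1 x.2⟩ : W)), ?_, ?_⟩
    · ext x
      constructor
      · intro hx
        obtain ⟨y, hy, rfl⟩ := Finset.mem_image.1 hx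
        obtain ⟨z, -, rfl⟩ := Finset.mem_image.1 hy
        exact z.2
      · intro hx
        exact Finset.mem_image.2 ⟨⟨x, hCs x hx⟩, Finset.mem_image.2 ⟨⟨x, hx⟩, Finset.mem_attach _ _, rfl⟩, rfl⟩
    · intro f w T hw hT
      have h1 := lC (f : V) (w : V) T (fun h => hw (Subtype.ext h)) (by
        intro t ht
        obtain ⟨z, -, hz⟩ := Finset.mem_image.1 (hT t ht)
        have h2 := congrArg (fun y : W => (y : V)) hz
        simp only [Submodule.coe_add, Submodule.coe_smul] at h2
        rw [← h2]; exact z.2)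
      rcases h1 with h1 | ⟨h1, c, hc⟩
      · exact Or.inl h1
      · exact Or.inr ⟨h1, c, Subtype.ext hc⟩
  obtain ⟨A', hA', lA'⟩ := key A Finset.subset_union_left lA
  obtain ⟨B', hB', lB'⟩ := key B Finset.subset_union_right lB
  have c1 : A'.card = A.card := by rw [← hA', Finset.card_image_of_injective _ hι]
  have c2 : B'.card = B.card := by rw [← hB', Finset.card_image_of_injective _ hι]
  have c3 : (A' + B').card = (A + B).card := by
    rw [← hA', ← hB', ← Finset.image_add, Finset.card_image_of_injective _ hι]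
  have := sum_fin hp A' B' (Finset.card_pos.1 (by rw [c1]; exact hA.card_pos))
    (Finset.card_pos.1 (by rw [c2]; exact hB.card_pos)) lA' lB'
  rwa [c1, c2, c3] at this

theorem lineBound_squares {p : ℕ} [Fact p.Prime] (hp : 5 ≤ p) (A : Finset (ZMod p)[X])
    (hA : ∀ f ∈ A, IsSquare f) : LineBound p A := by
  intro f w T hw hT
  have h2' : (2 : ZMod p) ≠ 0 := by
    intro h
    have h1 : ((2 : ℕ) : ZMod p) = 0 := by exact_mod_cast h
    rw [ZMod.natCast_eq_zero_iff] at h1
    have := Nat.le_of_dvd (by norm_num) h1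
    omega
  have h3 := line_card h2' f w hw T (fun t ht => by
    have := hA _ (hT t ht)
    rwa [smul_eq_C_mul] at this)
  rw [ZMod.card] at h3
  rcases h3 with h3 | ⟨h3, c, hc⟩
  · exact Or.inl h3
  · exact Or.inr ⟨h3, c, by rw [hc, smul_eq_C_mul]⟩

/-- **The inequality of torsion-free groups** for sets of squares. -/
theorem sum_squares {p : ℕ} [Fact p.Prime] (hp : 5 ≤ p) (A B : Finset (ZMod p)[X]) (hA : ∀ f ∈ A, IsSquare f)
    (hB : ∀ f ∈ B, IsSquare f) (nA : A.Nonempty) (nB : B.Nonempty) : A.card + B.card ≤ (A + B).card + 1 :=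
  sum_of_line hp A B nA nB (lineBound_squares hp A hA) (lineBound_squares hp B hB)

theorem three_halves {p : ℕ} [Fact p.Prime] (hp : 5 ≤ p) (A : Finset (ZMod p)[X]) (hA : ∀ f ∈ A, IsSquare f)
    (h2 : 2 ≤ A.card) : 3 * A.card ≤ 2 * (A + A).card := by
  have hne : A.Nonempty := Finset.card_pos.1 (by omega)
  have := sum_squares hp A A hA hA hne hne
  omega

end Pool.Agent.H96.SQ
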