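import Mathlib
import Pool.Agent.H96.SQ.Sharp
import Pool.Agent.H96.SQ.Dense
import Pool.Graph.R_seed8.Helper329.SQ.Main5
import Pool.Graph.R_seed8.Helper16.F5.LemmaP
import Pool.Graph.R_seed8.Y942.SQ.Transfer

/-!
# Growth of sumsets of squares of `𝔽_p[x]` with an explicit dependence on `p`
-/

set_option autoImplicit false

open Polynomial Pointwise

namespace Pool.Agent.H96.SQ

open Pool.Agent.Helper999.Sq3

theorem lemmaP_zmod (p : ℕ) [Fact p.Prime] (hp : 5 ≤ p) :
    Pool.Helper329.SQ.LemmaP (ZMod p) := by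
  intro f d e hsq
  have h := Pool.Helper16.F5.lemmaP (Pool.Helper329.SQ.two_ne hp) (Pool.Helper329.SQ.three_ne hp)
    f d e hsq
  simp only [Pool.Helper16.F5.PP] at h
  simp only [Pool.Helper329.SQ.PP]
  exact h

/-- the growth of large sets -/
theorem large (p : ℕ) [Fact p.Prime] (hp : 5 ≤ p) (M : ℕ) (hM : 6 * (p : ℝ) ≤ (100 / 97) ^ M)
    (A : Finset (ZMod p)[X]) (hA : ∀ f ∈ A, IsSquare f) (h2 : 2 ≤ A.card)
    (hR : p ^ (6 * (M + 6) ^ 11) ≤ A.card) :
    A.card ^ (8 * (M + 6) ^ 11 + 1) ≤ (A + A).card ^ (8 * (M + 6) ^ 11) := by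
  refine growthP_main p 11 {f : (ZMod p)[X] | IsSquare f} (fun _ => True) ?_ ?_
    (fun A hA => modellingP p A hA) (fun _ A φ hφ h => lift_grid p 11 A φ hφ h) ((M + 6) ^ 11)
    (grid_dense p (by omega) M hM 11) A hA trivial h2 hR
  · rintro ⟨x, d, hd, h⟩
    exact Pool.Helper329.SQ.grid5 (lemmaP_zmod p hp) hp x d (fun s hs => h s hs) hd
  · intro A hA _ h2
    have := three_halves hp A hA h2
    omega

/-- choice of `M` -/
theorem exists_M (p : ℕ) (hp : 5 ≤ p) :
    ∃ M : ℕ, 6 * (p : ℝ) ≤ (100 / 97) ^ M ∧ ((M : ℝ) + 6) ≤ 107 * Real.log p := by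
  have hp' : (5 : ℝ) ≤ p := by exact_mod_cast hp
  have hlog6 : Real.log 6 ≤ 2 * Real.log p := by
    have h1 : Real.log 6 ≤ Real.log ((p : ℝ) ^ 2) := Real.log_le_log (by norm_num) (by nlinarith)
    rwa [Real.log_pow, Nat.cast_ofNat] at h1
  have hlogp : (8 / 5 : ℝ) ≤ Real.log p := by
    have h1 : Real.exp (8 / 5) ≤ 5 := by
      have h2 : Real.exp (8 / 5) = Real.exp 1 * Real.exp (3 / 5) := by rw [← Real.exp_add]; norm_num
      have h3 : Real.exp 1 < 2.7182818286 := Real.exp_one_lt_d9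
      have h4 : Real.exp (3 / 5) ≤ 1.8222 := by
        have h5 := Real.exp_bound' (x := 3 / 5) (by norm_num) (by norm_num) (n := 6) (by norm_num)
        refine h5.trans ?_
        norm_num [Finset.sum_range_succ, Nat.factorial]
      rw [h2]
      have h6 : (0 : ℝ) < Real.exp (3 / 5) := Real.exp_pos _
      nlinarith
    rw [Real.le_log_iff_exp_le (by linarith)]
    linarith
  have hlogc : (3 / 100 : ℝ) ≤ Real.log (100 / 97) := by
    have := Real.one_sub_inv_le_log_of_pos (show (0 : ℝ) < 100 / 97 by norm_num)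
    norm_num at this ⊢
    linarith
  set x : ℝ := 34 * Real.log (6 * p) with hx
  have hlog6p : Real.log (6 * p) = Real.log 6 + Real.log p := Real.log_mul (by norm_num) (by linarith)
  have hlog60 : 0 ≤ Real.log 6 := Real.log_nonneg (by norm_num)
  have hx0 : 0 ≤ x := by rw [hx, hlog6p]; nlinarith
  refine ⟨⌈x⌉₊, ?_, ?_⟩
  · have h1 : x ≤ (⌈x⌉₊ : ℝ) := Nat.le_ceil x
    have h2 : Real.log (6 * p) ≤ Real.log ((100 / 97 : ℝ) ^ ⌈x⌉₊) := by
      rw [Real.log_pow]
      have h3 : x * (3 / 100) ≤ (⌈x⌉₊ : ℝ) * Real.log (100 / 97) :=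
        mul_le_mul h1 hlogc (by norm_num) (by positivity)
      have h4 : Real.log (6 * p) ≤ x * (3 / 100) := by
        rw [hx]
        have : 0 ≤ Real.log (6 * p) := by rw [hlog6p]; linarith
        nlinarith
      linarith
    exact (Real.log_le_log_iff (by positivity) (by positivity)).mp h2
  · have h1 : (⌈x⌉₊ : ℝ) < x + 1 := Nat.ceil_lt_add_one hx0
    rw [hx, hlog6p] at h1
    rw [hx, hlog6p]
    nlinarith

/-- the exponent -/
noncomputable def eps (p : ℕ) : ℝ := 10⁻¹ ^ 24 / Real.log p ^ 12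

theorem eps_bounds (p : ℕ) (hp : 5 ≤ p) (C : ℝ) (hC0 : 0 < C) (hC : C ≤ (107 * Real.log p) ^ 11) :
    0 < eps p ∧ eps p ≤ 1 / (8 * C) ∧ 6 * C * eps p * Real.log p ≤ 1 / 3 := by
  have hp' : (5 : ℝ) ≤ p := by exact_mod_cast hp
  have hL : 1 ≤ Real.log p := by
    rw [Real.le_log_iff_exp_le (by linarith)]
    have h3 : Real.exp 1 < 2.7182818286 := Real.exp_one_lt_d9
    linarith
  set L := Real.log p with hLdef
  have hL0 : 0 < L := by linarith
  have he : eps p = 10⁻¹ ^ 24 / L ^ 12 := rfl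
  have h107 : (107 : ℝ) ^ 11 ≤ 3 * 10 ^ 22 := by norm_num
  have hC' : C ≤ 3 * 10 ^ 22 * L ^ 11 := by
    refine hC.trans ?_
    rw [mul_pow]
    exact mul_le_mul_of_nonneg_right h107 (by positivity)
  refine ⟨by rw [he]; positivity, ?_, ?_⟩
  · rw [he, div_le_div_iff₀ (by positivity) (by positivity)]
    have h1 : 10⁻¹ ^ 24 * (8 * C) ≤ 10⁻¹ ^ 24 * (8 * (3 * 10 ^ 22 * L ^ 11)) := by
      apply mul_le_mul_of_nonneg_left _ (by positivity); linarith
    have h2 : (10⁻¹ : ℝ) ^ 24 * (8 * (3 * 10 ^ 22 * L ^ 11)) = (24 / 100) * L ^ 11 := by ring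
    have h3 : L ^ 11 ≤ L ^ 12 := pow_le_pow_right₀ hL (by norm_num)
    have h4 : 0 ≤ L ^ 11 := by positivity
    linarith
  · rw [he]
    have h1 : 6 * C * (10⁻¹ ^ 24 / L ^ 12) * L = 6 * 10⁻¹ ^ 24 * (C / L ^ 11) := by
      field_simp
    rw [h1]
    have h2 : C / L ^ 11 ≤ 3 * 10 ^ 22 := by
      rw [div_le_iff₀ (by positivity)]; exact hC'
    have h3 : (6 : ℝ) * 10⁻¹ ^ 24 * (C / L ^ 11) ≤ 6 * 10⁻¹ ^ 24 * (3 * 10 ^ 22) :=
      mul_le_mul_of_nonneg_left h2 (by positivity)
    refine h3.trans ?_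
    norm_num

/-- **Growth with an explicit exponent.** -/
theorem growth_poly (p : ℕ) [Fact p.Prime] (hp : 5 ≤ p) (A : Finset (ZMod p)[X]) (hA : ∀ f ∈ A, IsSquare f) :
    (A.card : ℝ) ^ (1 + eps p) ≤ ((A + A).card : ℝ) := by
  obtain ⟨M, hM1, hM2⟩ := exists_M p hp
  have hp' : (5 : ℝ) ≤ p := by exact_mod_cast hp
  set C : ℕ := (M + 6) ^ 11 with hC
  have hC0 : 0 < C := by rw [hC]; positivity
  have hC0' : (0 : ℝ) < C := by exact_mod_cast hC0
  have hCle : (C : ℝ) ≤ (107 * Real.log p) ^ 11 := by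
    rw [hC]
    push_cast
    exact pow_le_pow_left₀ (by positivity) hM2 11
  obtain ⟨he0, he1, he2⟩ := eps_bounds p hp C hC0' hCle
  rcases Nat.lt_or_ge A.card 2 with hlt | hge
  · have hcases : A.card = 0 ∨ A.card = 1 := by omega
    rcases hcases with h0 | h1
    · rw [h0, Nat.cast_zero, Real.zero_rpow (by linarith)]
      positivity
    · obtain ⟨x, hx⟩ := Finset.card_eq_one.1 h1
      rw [h1, Nat.cast_one, Real.one_rpow, hx, Finset.singleton_add_singleton,
        Finset.card_singleton, Nat.cast_one]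
  · have hN1 : (1 : ℝ) ≤ (A.card : ℝ) := by
      have : 1 ≤ A.card := by omega
      exact_mod_cast this
    have hNpos : (0 : ℝ) < (A.card : ℝ) := by linarith
    rcases Nat.lt_or_ge A.card (p ^ (6 * C)) with hNR | hRN
    · have hs := three_halves hp A hA hge
      have hs' : 3 * (A.card : ℝ) ≤ 2 * ((A + A).card : ℝ) := by exact_mod_cast hs
      have h1 : (A.card : ℝ) ^ eps p ≤ 3 / 2 := by
        have h2 : (A.card : ℝ) ^ eps p ≤ ((p : ℝ) ^ (6 * C)) ^ eps p := by
          apply Real.rpow_le_rpow hNpos.le _ he0.le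
          exact_mod_cast hNR.le
        have h3 : ((p : ℝ) ^ (6 * C)) ^ eps p = Real.exp (6 * C * eps p * Real.log p) := by
          rw [Real.rpow_def_of_pos (by positivity), Real.log_pow]
          congr 1
          push_cast
          ring
        have h4 : Real.exp (6 * C * eps p * Real.log p) ≤ 3 / 2 := by
          have h5 : Real.exp (6 * C * eps p * Real.log p) ≤ Real.exp (1 / 3) := Real.exp_le_exp.mpr he2
          have h6 : (1 / 3 : ℝ) ≤ Real.log (3 / 2) := by
            have := Real.one_sub_inv_le_log_of_pos (show (0 : ℝ) < 3 / 2 by norm_num)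
            norm_num at this ⊢
            linarith
          have h7 : Real.exp (1 / 3) ≤ 3 / 2 := (Real.le_log_iff_exp_le (by norm_num)).mp h6
          linarith
        linarith
      rw [Real.rpow_add hNpos, Real.rpow_one]
      have h8 := mul_le_mul_of_nonneg_left h1 hNpos.le
      linarith
    · have hmain := large p hp M hM1 A hA hge hRN
      rw [← hC] at hmain
      set m : ℕ := 8 * C with hm
      have hm0 : m ≠ 0 := by omega
      have hmpos : (0 : ℝ) < m := by positivity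
      have hmain' : (A.card : ℝ) ^ (m + 1) ≤ ((A + A).card : ℝ) ^ m := by
        exact_mod_cast hmain
      have he3 : eps p ≤ 1 / (m : ℝ) := by
        rw [hm]; push_cast; exact he1
      calc (A.card : ℝ) ^ (1 + eps p) ≤ (A.card : ℝ) ^ (1 + 1 / (m : ℝ)) := by
            refine Real.rpow_le_rpow_of_exponent_le hN1 ?_
            linarith
        _ ≤ ((A + A).card : ℝ) := by
            refine le_of_pow_le_pow_left₀ hm0 (by positivity) ?_
            rw [← Real.rpow_mul_natCast hNpos.le]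
            have e : (1 + 1 / (m : ℝ)) * (m : ℝ) = ((m + 1 : ℕ) : ℝ) := by
              push_cast
              field_simp
            rw [e, Real.rpow_natCast]
            exact hmain'

end Pool.Agent.H96.SQ
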