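import Mathlib
import Pool.Agent.H96.SQ.Main
import Pool.Graph.R_seed8.Helper999.Sq3.P3

set_option autoImplicit false

open Polynomial Pointwise

namespace Pool.Agent.H96.SQ

/-- Ruzsa's inequality -/
theorem asym {G : Type*} [AddCommGroup G] [DecidableEq G] (A B : Finset G) :
    (A + A).card * B.card ≤ (A + B).card ^ 2 := by
  have h := Finset.ruzsa_triangle_inequality_add_add_add A B A
  rw [add_comm B A] at h
  rw [sq]; exact h

theorem asym_real {G : Type*} [AddCommGroup G] [DecidableEq G] (A B : Finset G) {x : ℝ}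
    (h : x ≤ ((A + A).card : ℝ)) : x * B.card ≤ ((A + B).card : ℝ) ^ 2 := by
  have h1 : (((A + A).card : ℕ) : ℝ) * B.card ≤ ((A + B).card : ℝ) ^ 2 := by exact_mod_cast asym A B
  exact (mul_le_mul_of_nonneg_right h (by positivity)).trans h1

theorem eps_eq (p : ℕ) : eps p = 1 / (10 ^ 24 * Real.log p ^ 12) := by
  unfold eps
  rw [inv_pow, inv_eq_one_div, div_div]

theorem card_add_image_le₂ {G H : Type*} [AddCommGroup G] [DecidableEq G] [AddCommGroup H] [DecidableEq H]
    (A B : Finset G) (f : G → H)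
    (h2 : ∀ a ∈ A ∪ B, ∀ b ∈ A ∪ B, ∀ c ∈ A ∪ B, ∀ d ∈ A ∪ B, a + b = c + d → f a + f b = f c + f d) :
    (A.image f + B.image f).card ≤ (A + B).card := by
  classical
  have key : ∀ s : G, ∃ t : H, ∀ a ∈ A, ∀ b ∈ B, a + b = s → f a + f b = t := by
    intro s
    by_cases hs : ∃ a ∈ A, ∃ b ∈ B, a + b = s
    · obtain ⟨a, ha, b, hb, hab⟩ := hs
      exact ⟨f a + f b, fun c hc d hd hcd => h2 c (Finset.mem_union_left _ hc) d (Finset.mem_union_right _ hd)
        a (Finset.mem_union_left _ ha) b (Finset.mem_union_right _ hb) (hcd.trans hab.symm)⟩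
    · exact ⟨0, fun a ha b hb hab => absurd ⟨a, ha, b, hb, hab⟩ hs⟩
  choose g hg using key
  have hsub : A.image f + B.image f ⊆ (A + B).image g := by
    intro y hy
    obtain ⟨u, hu, v, hv, rfl⟩ := Finset.mem_add.1 hy
    obtain ⟨a, ha, rfl⟩ := Finset.mem_image.1 hu
    obtain ⟨b, hb, rfl⟩ := Finset.mem_image.1 hv
    exact Finset.mem_image.2 ⟨a + b, Finset.add_mem_add ha hb, (hg (a + b) a ha b hb rfl).symm⟩
  exact (Finset.card_le_card hsub).trans Finset.card_image_le

/-- rational functions in any number of variables: a model in `𝔽_p[x]` -/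
theorem model (p : ℕ) [Fact p.Prime] (σ : Type)
    [DecidableEq (FractionRing (MvPolynomial σ (ZMod p)))]
    (A B : Finset (FractionRing (MvPolynomial σ (ZMod p)))) (hA : ∀ f ∈ A, IsSquare f) (hB : ∀ f ∈ B, IsSquare f) :
    ∃ A' B' : Finset (ZMod p)[X], (∀ f ∈ A', IsSquare f) ∧ (∀ f ∈ B', IsSquare f) ∧ A'.card = A.card ∧
      B'.card = B.card ∧ (A' + B').card ≤ (A + B).card := by
  classical
  obtain ⟨f, hf1, hf2, hf3⟩ := Pool.Agent.Y942.SQ.exists_model (ZMod p) σ 2 (by norm_num) (A ∪ B) (by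
    intro x hx
    rcases Finset.mem_union.1 hx with h | h
    · obtain ⟨g, hg⟩ := hA x h
      exact ⟨g, by rw [hg, sq]⟩
    · obtain ⟨g, hg⟩ := hB x h
      exact ⟨g, by rw [hg, sq]⟩)
  have hsq : ∀ C : Finset _, C ⊆ A ∪ B → ∀ y ∈ C.image f, IsSquare y := by
    intro C hC y hy
    obtain ⟨x, hx, rfl⟩ := Finset.mem_image.1 hy
    obtain ⟨g, hg⟩ := hf3 x (hC hx)
    exact ⟨g, by rw [hg, sq]⟩
  have hA0 : A ⊆ A ∪ B := Finset.subset_union_left
  have hB0 : B ⊆ A ∪ B := Finset.subset_union_right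
  refine ⟨A.image f, B.image f, hsq A hA0, hsq B hB0, Finset.card_image_of_injOn (hf1.mono (Finset.coe_subset.2 hA0)),
    Finset.card_image_of_injOn (hf1.mono (Finset.coe_subset.2 hB0)), card_add_image_le₂ A B f hf2⟩

/-- growth for rational functions -/
theorem transfer (p : ℕ) [Fact p.Prime] (hp : 5 ≤ p) (σ : Type)
    [DecidableEq (FractionRing (MvPolynomial σ (ZMod p)))]
    (A : Finset (FractionRing (MvPolynomial σ (ZMod p)))) (hA : ∀ f ∈ A, IsSquare f) :
    (A.card : ℝ) ^ (1 + eps p) ≤ ((A + A).card : ℝ) := by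
  obtain ⟨f, hf1, hf2, hf3⟩ := Pool.Agent.Y942.SQ.exists_model (ZMod p) σ 2 (by norm_num) A (by
    intro x hx
    obtain ⟨g, hg⟩ := hA x hx
    exact ⟨g, by rw [hg, sq]⟩)
  have hc : (A.image f).card = A.card := Finset.card_image_of_injOn hf1
  have hsq : ∀ y ∈ A.image f, IsSquare y := by
    intro y hy
    obtain ⟨x, hx, rfl⟩ := Finset.mem_image.1 hy
    obtain ⟨g, hg⟩ := hf3 x hx
    exact ⟨g, by rw [hg, sq]⟩
  have h5 : (A.image f + A.image f).card ≤ (A + A).card := Pool.Agent.Y942.SQ.card_add_image_le A f hf2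
  have h4 := growth_poly p hp (A.image f) hsq
  rw [hc] at h4
  exact h4.trans (by exact_mod_cast h5)

theorem transfer_sum (p : ℕ) [Fact p.Prime] (hp : 5 ≤ p) (σ : Type)
    [DecidableEq (FractionRing (MvPolynomial σ (ZMod p)))]
    (A B : Finset (FractionRing (MvPolynomial σ (ZMod p)))) (hA : ∀ f ∈ A, IsSquare f) (hB : ∀ f ∈ B, IsSquare f)
    (nA : A.Nonempty) (nB : B.Nonempty) : A.card + B.card ≤ (A + B).card + 1 := by
  obtain ⟨A', B', h1, h2, h3, h4, h5⟩ := model p σ A B hA hB
  have := sum_squares hp A' B' h1 h2 (Finset.card_pos.1 (by rw [h3]; exact nA.card_pos))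
    (Finset.card_pos.1 (by rw [h4]; exact nB.card_pos))
  omega

/-- the squares of the constants -/
theorem upper (p : ℕ) [Fact p.Prime] (hp : 5 ≤ p) :
    ∃ A : Finset (ZMod p)[X], (∀ f ∈ A, IsSquare f) ∧ 2 * A.card = p + 1 ∧ (A + A).card + 1 = 2 * A.card ∧
      ((A + A).card : ℝ) < (A.card : ℝ) ^ (1 + 2 / Real.log p) := by
  classical
  have hpr : p.Prime := Fact.out
  have hp' : (5 : ℝ) ≤ p := by exact_mod_cast hp
  have hodd : p % 2 = 1 := by
    rcases hpr.eq_two_or_odd with h | h
    · omega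
    · exact h
  set S : Finset (ZMod p) := Finset.univ.image (fun a : ZMod p => a * a) with hS
  set A : Finset (ZMod p)[X] := S.image (fun a => C a) with hA
  have hAS : A.card = S.card := Finset.card_image_of_injective _ C_injective
  have hlow : p ≤ 2 * S.card := by
    have h1 : (Finset.univ : Finset (ZMod p)).card ≤ 2 * (Finset.univ.image (fun a : ZMod p => a * a)).card := by
      apply Finset.card_le_mul_card_image
      intro b hb
      obtain ⟨a, -, rfl⟩ := Finset.mem_image.1 hb
      have : (Finset.univ.filter (fun x : ZMod p => x * x = a * a)) ⊆ {a, -a} := by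
        intro x hx
        rw [Finset.mem_filter] at hx
        have h2 : (x - a) * (x + a) = 0 := by linear_combination hx.2
        rcases mul_eq_zero.1 h2 with h3 | h3
        · rw [Finset.mem_insert]; left; exact sub_eq_zero.1 h3
        · rw [Finset.mem_insert, Finset.mem_singleton]; right; exact eq_neg_of_add_eq_zero_left h3
      exact (Finset.card_le_card this).trans Finset.card_le_two
    rwa [Finset.card_univ, ZMod.card] at h1
  have hhigh : 2 * S.card ≤ p + 1 := by
    have h2' : (2 : ZMod p) ≠ 0 := Pool.Helper329.SQ.two_ne hp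
    have h3 := line_card h2' (0 : (ZMod p)[X]) 1 one_ne_zero S (fun t ht => by
      obtain ⟨a, -, rfl⟩ := Finset.mem_image.1 ht
      exact ⟨C a, by rw [zero_add, mul_one, C_mul]⟩)
    rw [ZMod.card] at h3
    rcases h3 with h3 | h3
    · omega
    · exact h3.1
  have hcard : 2 * S.card = p + 1 := by omega
  have hsqA : ∀ f ∈ A, IsSquare f := by
    intro f hf
    obtain ⟨b, hb, rfl⟩ := Finset.mem_image.1 hf
    obtain ⟨a, -, rfl⟩ := Finset.mem_image.1 hb
    exact ⟨C a, by rw [C_mul]⟩
  have h1 : (A + A).card ≤ p := by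
    have h2 : A + A ⊆ (Finset.univ : Finset (ZMod p)).image (fun a => C a) := by
      intro x hx
      obtain ⟨y, hy, z, hz, rfl⟩ := Finset.mem_add.1 hx
      obtain ⟨b, -, rfl⟩ := Finset.mem_image.1 hy
      obtain ⟨c, -, rfl⟩ := Finset.mem_image.1 hz
      exact Finset.mem_image.2 ⟨b + c, Finset.mem_univ _, by rw [C_add]⟩
    have h3 := (Finset.card_le_card h2).trans Finset.card_image_le
    rwa [Finset.card_univ, ZMod.card] at h3
  have hneA : A.Nonempty := Finset.card_pos.1 (by omega)
  have h1' := sum_squares hp A A hsqA hsqA hneA hneA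
  refine ⟨A, hsqA, by rw [hAS]; exact hcard, by omega, ?_⟩
  · have hN : 2 * (A.card : ℝ) = p + 1 := by rw [hAS]; exact_mod_cast hcard
    have hNpos : 0 < (A.card : ℝ) := by linarith
    have hL : 1 ≤ Real.log p := by
      rw [Real.le_log_iff_exp_le (by linarith)]
      have h3 : Real.exp 1 < 2.7182818286 := Real.exp_one_lt_d9
      linarith
    have hlog2 : Real.log 2 ≤ 1 := by
      have := Real.log_two_lt_d9
      linarith
    have h2 : (2 : ℝ) ≤ (A.card : ℝ) ^ (2 / Real.log p) := by
      rw [Real.rpow_def_of_pos hNpos, ← Real.log_le_iff_le_exp (by norm_num)]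
      have h3 : Real.log p ≤ 2 * Real.log (A.card : ℝ) := by
        have h4 : Real.log p ≤ Real.log ((A.card : ℝ) ^ 2) := by
          apply Real.log_le_log (by linarith)
          have : (A.card : ℝ) = (p + 1) / 2 := by linarith
          rw [this]
          nlinarith [sq_nonneg ((p : ℝ) - 1)]
        rwa [Real.log_pow, Nat.cast_ofNat] at h4
      have h5 : Real.log (A.card : ℝ) * (2 / Real.log p) = 2 * Real.log (A.card : ℝ) / Real.log p := by ring
      rw [h5, le_div_iff₀ (by linarith)]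
      nlinarith
    rw [Real.rpow_add hNpos, Real.rpow_one]
    have h6 : (A.card : ℝ) * 2 ≤ (A.card : ℝ) * (A.card : ℝ) ^ (2 / Real.log p) :=
      mul_le_mul_of_nonneg_left h2 hNpos.le
    have h7 : ((A + A).card : ℝ) ≤ p := by exact_mod_cast h1
    linarith

end Pool.Agent.H96.SQ
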